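import Mathlib
import Pool.Agent.Helper61.LN.Goals

/-! Packet LN-ALG2 (MP_c65973_gt). -/

set_option autoImplicit false

namespace Pool.Agent.Helper52.LN.ALG2

open Pool.Agent.Helper61.LN

universe u

variable {P : Type u} [AddCommGroup P]

theorem tau3 (τ3 : P →+ P) (x : ℕ → P)
    (h3 : ∀ m : ℕ, (m = 0 ∨ 3 ≤ m) → τ3 (x m) = x (m + 3)) (a : ℕ) :
    ∃ τ : P →+ P, ∀ m : ℕ, (m = 0 ∨ 3 ≤ m) → τ (x m) = x (m + 3 * a) := by
  induction a with
  | zero => exact ⟨AddMonoidHom.id P, fun m _ => rfl⟩
  | succ a ih =>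
    obtain ⟨τ, hτ⟩ := ih
    refine ⟨τ3.comp τ, fun m hm => ?_⟩
    rw [AddMonoidHom.comp_apply, hτ m hm, h3 _ (by omega)]
    congr 1

theorem tau35 (τ3 τ5 : P →+ P) (x : ℕ → P)
    (h3 : ∀ m : ℕ, (m = 0 ∨ 3 ≤ m) → τ3 (x m) = x (m + 3))
    (h5 : ∀ m : ℕ, (m = 0 ∨ 3 ≤ m) → τ5 (x m) = x (m + 5)) (a d : ℕ) :
    ∃ τ : P →+ P, ∀ m : ℕ, (m = 0 ∨ 3 ≤ m) → τ (x m) = x (m + (3 * a + 5 * d)) := by
  induction d with
  | zero => exact tau3 τ3 x h3 a
  | succ d ih =>
    obtain ⟨τ, hτ⟩ := ih
    refine ⟨τ5.comp τ, fun m hm => ?_⟩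
    have h : m + (3 * a + 5 * d) = 0 ∨ 3 ≤ m + (3 * a + 5 * d) := by
      rcases Nat.eq_zero_or_pos a with ha | ha
      · rcases Nat.eq_zero_or_pos d with hd | hd
        · subst ha hd
          omega
        · omega
      · omega
    rw [AddMonoidHom.comp_apply, hτ m hm, h5 _ h]
    congr 1

theorem tau (τ3 τ5 : P →+ P) (x : ℕ → P)
    (h3 : ∀ m : ℕ, (m = 0 ∨ 3 ≤ m) → τ3 (x m) = x (m + 3))
    (h5 : ∀ m : ℕ, (m = 0 ∨ 3 ≤ m) → τ5 (x m) = x (m + 5)) (j : ℕ)
    (hj : j = 0 ∨ j = 3 ∨ j = 5 ∨ j = 6 ∨ 8 ≤ j) :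
    ∃ τ : P →+ P, ∀ m : ℕ, (m = 0 ∨ 3 ≤ m) → τ (x m) = x (m + j) := by
  have h : ∃ a d : ℕ, j = 3 * a + 5 * d := by
    rcases (show j % 3 = 0 ∨ j % 3 = 1 ∨ j % 3 = 2 by omega) with h | h | h
    · exact ⟨j / 3, 0, by omega⟩
    · exact ⟨(j - 10) / 3, 2, by omega⟩
    · exact ⟨(j - 5) / 3, 1, by omega⟩
  obtain ⟨a, d, rfl⟩ := h
  exact tau35 τ3 τ5 x h3 h5 a d

theorem t : S_ALG2.{u} := by
  intro P _ τ3 τ5 x z1 z2 hP inj h3 h5
  have hne : ∀ m : ℕ, (m = 0 ∨ 3 ≤ m) → x m ≠ 0 := by
    intro m hm h
    have h1 := h3 m hm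
    rw [h, map_zero] at h1
    have h2 := inj m (m + 3) hm (by omega) (by rw [h, ← h1])
    omega
  obtain ⟨n, hn⟩ : ∃ n : P, ∀ p : P, (∃ m : ℕ, (m = 0 ∨ 3 ≤ m) ∧ p = x m) ∨ p = 0 ∨ p = n := by
    rcases hP 0 with ⟨m, hm, h⟩ | h | h
    · exact absurd h.symm (hne m hm)
    · exact ⟨z2, fun p => by rw [h]; exact hP p⟩
    · refine ⟨z1, fun p => ?_⟩
      rw [h]
      rcases hP p with h1 | h1 | h1
      · exact Or.inl h1
      · exact Or.inr (Or.inr h1)
      · exact Or.inr (Or.inl h1)
  have hT := tau τ3 τ5 x h3 h5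
  have h0 := hne 0 (by omega)
  have h3ne := hne 3 (by omega)
  -- step 1
  have ee : x 0 + x 0 = 0 := by
    rcases hn (-x 0) with ⟨k, hk, h⟩ | h | h
    · obtain ⟨τ8, h8⟩ := hT 8 (by omega)
      obtain ⟨τk, hτk⟩ := hT (k + 8) (by omega)
      have e1 : -x 8 = x (k + 8) := by
        have e := congrArg τ8 h
        rw [map_neg, h8 0 (by omega), h8 k hk, Nat.zero_add] at e
        exact e
      have e2 : -x (k + 8) = x (k + (k + 8)) := by
        have e := congrArg τk h
        rw [map_neg, hτk 0 (by omega), hτk k hk, Nat.zero_add] at e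
        exact e
      have e3 : x 8 = x (k + (k + 8)) := by rw [← e2, ← e1, neg_neg]
      have e4 := inj _ _ (by omega) (by omega) e3
      have e5 : k = 0 := by omega
      rw [e5] at h
      nth_rewrite 1 [← h]
      exact neg_add_cancel _
    · exact absurd (neg_eq_zero.1 h) h0
    · have e33 : x 3 + x 3 = 0 := by
        rcases hn (-x 3) with ⟨m, hm, h'⟩ | h' | h'
        · obtain ⟨τ8, h8⟩ := hT 8 (by omega)
          obtain ⟨τm, hτm⟩ := hT (m + 5) (by omega)
          have e1 : -x 11 = x (m + 8) := by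
            have e := congrArg τ8 h'
            rw [map_neg, h8 3 (by omega), h8 m hm] at e
            exact e
          have e2 : -x (3 + (m + 5)) = x (m + (m + 5)) := by
            have e := congrArg τm h'
            rw [map_neg, hτm 3 (by omega), hτm m hm] at e
            exact e
          have e3 : x 11 = x (m + (m + 5)) := by
            rw [← e2, show 3 + (m + 5) = m + 8 by omega, ← e1, neg_neg]
          have e4 := inj _ _ (by omega) (by omega) e3
          have e5 : m = 3 := by omega
          rw [e5] at h'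
          nth_rewrite 1 [← h']
          exact neg_add_cancel _
        · exact absurd (neg_eq_zero.1 h') h3ne
        · have e1 : x 3 = x 0 := by
            apply neg_injective
            rw [h', h]
          have := inj _ _ (by omega) (by omega) e1
          omega
      rcases hn (x 0 + x 0) with ⟨k, hk, h'⟩ | h' | h'
      · have e := congrArg τ3 h'
        rw [map_add, h3 0 (by omega), h3 k hk, Nat.zero_add, e33] at e
        exact absurd e.symm (hne _ (by omega))
      · exact h'
      · exfalso
        have e : x 0 + x 0 + x 0 = 0 := by rw [h', ← h]; exact neg_add_cancel _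
        have e' := congrArg τ3 e
        rw [map_add, map_add, map_zero, h3 0 (by omega), Nat.zero_add, e33, zero_add] at e'
        exact h3ne e'
  have jj : ∀ j : ℕ, 8 ≤ j → x j + x j = 0 := by
    intro j hj
    obtain ⟨τ, hτ⟩ := hT j (by omega)
    have e := congrArg τ ee
    rw [map_add, map_zero, hτ 0 (by omega), Nat.zero_add] at e
    exact e
  -- step 2
  obtain ⟨t, m, ht, hm, htm, hx⟩ : ∃ t m : ℕ, (t = 3 ∨ t = 5) ∧ (3 ≤ m) ∧ t ≠ m ∧
      x 0 + x t = x m := by
    have key : ∀ t : ℕ, 3 ≤ t → x 0 + x t ≠ n →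
        ∃ m : ℕ, 3 ≤ m ∧ t ≠ m ∧ x 0 + x t = x m := by
      intro t ht hne'
      rcases hn (x 0 + x t) with ⟨m, hm, h⟩ | h | h
      · refine ⟨m, ?_, ?_, h⟩
        · rcases hm with hm | hm
          · rw [hm] at h
            have : x t = 0 := by
              have h2 : x 0 + x t = x 0 + 0 := by rw [h, add_zero]
              exact add_left_cancel h2
            exact absurd this (hne t (by omega))
          · exact hm
        · intro htm
          rw [← htm] at h
          have : x 0 = 0 := by
            have h2 : x 0 + x t = 0 + x t := by rw [h, zero_add]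
            exact add_right_cancel h2
          exact h0 this
      · exfalso
        have h2 : x 0 + x t = x 0 + x 0 := by rw [h, ee]
        have := inj _ _ (by omega) (by omega) (add_left_cancel h2)
        omega
      · exact absurd h hne'
    by_cases h : x 0 + x 3 = n
    · have h' : x 0 + x 5 ≠ n := by
        intro h'
        have := inj _ _ (by omega) (by omega) (add_left_cancel (h.trans h'.symm))
        omega
      obtain ⟨m, a, b, c⟩ := key 5 (by omega) h'
      exact ⟨5, m, by omega, a, b, c⟩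
    · obtain ⟨m, a, b, c⟩ := key 3 (by omega) h
      exact ⟨3, m, by omega, a, b, c⟩
  have rel : ∀ j : ℕ, 8 ≤ j → x j + x (t + j) = x (m + j) := by
    intro j hj
    obtain ⟨τ, hτ⟩ := hT j (by omega)
    have e := congrArg τ hx
    rw [map_add, hτ 0 (by omega), hτ t (by omega), hτ m (by omega), Nat.zero_add] at e
    exact e
  -- the finite subgroup
  let s : Set P := x '' Set.Ico 8 (8 + max m t)
  have hs : s.Finite := (Set.finite_Ico _ _).image x
  let H : AddSubgroup P := AddSubgroup.closure s
  have hH : ∀ k : ℕ, 8 ≤ k → x k ∈ H := by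
    intro k
    induction k using Nat.strong_induction_on with
    | _ k ih =>
      intro hk
      by_cases hk' : k < 8 + max m t
      · exact AddSubgroup.subset_closure ⟨k, ⟨hk, hk'⟩, rfl⟩
      · rcases lt_or_gt_of_ne htm with hlt | hlt
        · have hmax : max m t = m := by omega
          rw [hmax] at hk'
          have e := rel (k - m) (by omega)
          rw [show m + (k - m) = k by omega] at e
          rw [← e]
          exact H.add_mem (ih _ (by omega) (by omega)) (ih _ (by omega) (by omega))
        · have hmax : max m t = t := by omega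
          rw [hmax] at hk'
          have e := rel (k - t) (by omega)
          rw [show t + (k - t) = k by omega] at e
          have e2 : x k = x (m + (k - t)) - x (k - t) := by
            rw [← e]
            abel
          rw [e2]
          exact H.sub_mem (ih _ (by omega) (by omega)) (ih _ (by omega) (by omega))
  have h2 : ∀ h ∈ H, h + h = 0 := by
    intro h hh
    induction hh using AddSubgroup.closure_induction with
    | mem y hy =>
      obtain ⟨k, hk, rfl⟩ := hy
      exact jj k hk.1
    | zero => exact add_zero 0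
    | add a b _ _ ha hb =>
      have : a + b + (a + b) = (a + a) + (b + b) := by abel
      rw [this, ha, hb, add_zero]
    | neg a _ ha =>
      have : -a + -a = -(a + a) := by abel
      rw [this, ha, neg_zero]
  have : Finite s := hs
  have hfin : Finite H := by
    apply AddCommGroup.finite_of_fg_isAddTorsion
    intro g
    rw [isOfFinAddOrder_iff_nsmul_eq_zero]
    refine ⟨2, by norm_num, ?_⟩
    rw [two_nsmul]
    apply Subtype.ext
    exact h2 g.1 g.2
  let f : ℕ → H := fun k => ⟨x (k + 8), hH _ (by omega)⟩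
  have hf : Function.Injective f := by
    intro a b hab
    have h1 : x (a + 8) = x (b + 8) := congrArg Subtype.val hab
    have := inj _ _ (by omega) (by omega) h1
    omega
  exact not_injective_infinite_finite f hf

end Pool.Agent.Helper52.LN.ALG2
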